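import Pool.Agent.Lib.MP_a14fda_pr.FKH.Sens

/-! Noise sensitivity of crossings for the heat-bath dynamics of the critical (self-dual)
random-cluster model on the hierarchical lattice generated by the Wheatstone bridge. -/

namespace Pool.Agent.Results.MP_a14fda_pr.BridgeNoiseSensitivity

open Pool.Agent.FKH

/-- For `0 < q ≤ 5 / 2` and `p = √q / (1 + √q)` (the case `q = 2` is the critical FK-Ising model)
the crossing events of the blocks of the bridge lattice have probabilities bounded away from `0`
and `1`, and are noise sensitive under the heat-bath dynamics of the whole lattice, with a rate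
that is exponential in the level of the block and uniform in the volume. -/
theorem result {q : ℝ} (hq : 0 < q) (hq2 : q ≤ 5 / 2) :
    ∃ C : ℝ, ∀ (k N : ℕ) (ι : LEdge (Fin 5) k → LEdge (Fin 5) N), IsBlock (Fin 5) k N ι →
      (min 1 √q / (1 + √q) ≤ ∑ ω, (bridge.lattice N).fk (√q / (1 + √q)) q ω *
          (bridge.lattice k).cross (ω ∘ ι) ∧
        ∑ ω, (bridge.lattice N).fk (√q / (1 + √q)) q ω *
          (bridge.lattice k).cross (ω ∘ ι) ≤ max 1 √q / (1 + √q)) ∧
      ∀ t : ℝ, 0 < t →
        0 ≤ autoCov ((bridge.lattice N).fk (√q / (1 + √q)) q) t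
          (fun ω => (bridge.lattice k).cross (ω ∘ ι)) ∧
        autoCov ((bridge.lattice N).fk (√q / (1 + √q)) q) t
          (fun ω => (bridge.lattice k).cross (ω ∘ ι)) ≤ C * (99 / 100) ^ k / t :=
  bridge_sens hq hq2

end Pool.Agent.Results.MP_a14fda_pr.BridgeNoiseSensitivity
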