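import Pool.Agent.Lib.MP_a14fda_pr.FKH.BridgeStay

/-! Failure of noise sensitivity for the heat-bath dynamics of the critical (self-dual)
random-cluster model with `q > (7 + √13) / 2` on the hierarchical lattice generated by the
Wheatstone bridge. -/

namespace Pool.Agent.Results.MP_a14fda_pr.BridgeSlowCrossings

open Pool.Agent.FKH

/-- For `q > 3 + √q`, that is `q > (7 + √13) / 2`, and `p = √q / (1 + √q)`, the crossing events of
the blocks of the bridge lattice, whose probabilities are bounded away from `0` and `1`, are not
noise sensitive under the heat-bath dynamics of the whole lattice: the covariance at times `0` and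
`t` stays above a positive constant, uniformly in the volume, for all times up to a bound which
grows exponentially with the level of the block. -/
theorem result {q : ℝ} (hq : 3 + √q < q) :
    ∃ c : ℝ, 0 < c ∧ ∃ r : ℝ, 1 < r ∧
      ∀ (k N : ℕ) (ι : LEdge (Fin 5) k → LEdge (Fin 5) N), IsBlock (Fin 5) k N ι →
      (1 / (1 + √q) ≤ ∑ ω, (bridge.lattice N).fk (√q / (1 + √q)) q ω *
          (bridge.lattice k).cross (ω ∘ ι) ∧
        ∑ ω, (bridge.lattice N).fk (√q / (1 + √q)) q ω *
          (bridge.lattice k).cross (ω ∘ ι) ≤ √q / (1 + √q)) ∧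
      ∀ t : ℝ, 0 ≤ t → t ≤ c * r ^ k →
        c ≤ autoCov ((bridge.lattice N).fk (√q / (1 + √q)) q) t
          (fun ω => (bridge.lattice k).cross (ω ∘ ι)) :=
  bridge_stay hq

end Pool.Agent.Results.MP_a14fda_pr.BridgeSlowCrossings
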