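import Pool.Agent.Lib.MP_a14fda_pr.DHL.SensD
import Pool.Agent.Lib.MP_a14fda_pr.DHL.Crit
import Pool.Agent.Lib.MP_a14fda_pr.DHL.Uniq

/-! Noise sensitivity of crossings for the heat-bath dynamics of the critical FK-Ising model on
all diamond hierarchical lattices. -/

namespace Pool.Agent.Results.MP_a14fda_pr.DiamondNoiseSensitivity

open Pool.Agent.FKH

/-- Let `b, r ≥ 2`. There is exactly one `p` in `(0, 1)` that is a fixed point of the
Migdal–Kadanoff recursion of the FK-Ising model (`q = 2`) on the diamond hierarchical lattice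
(every edge is replaced by `r` parallel chains of `b` edges), and at this `p` the crossing events
of the blocks have probabilities bounded away from `0` and `1`, and are noise sensitive under the
heat-bath dynamics of the whole lattice, with a rate that is exponential in the level of the block
and uniform in the volume. -/
theorem result {b r : ℕ} (hb : 2 ≤ b) (hr : 2 ≤ r) :
    ∃ p : ℝ, (0 < p ∧ p < 1 ∧ (1 + p / (2 - p)) / (1 - p / (2 - p)) =
        ((1 + (p / (2 - p)) ^ b) / (1 - (p / (2 - p)) ^ b)) ^ r) ∧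
      (∀ p' : ℝ, 0 < p' → p' < 1 → (1 + p' / (2 - p')) / (1 - p' / (2 - p')) =
        ((1 + (p' / (2 - p')) ^ b) / (1 - (p' / (2 - p')) ^ b)) ^ r → p' = p) ∧
      ∃ θ C : ℝ, 0 ≤ θ ∧ θ < 1 ∧
        ∀ (k N : ℕ) (ι : LEdge (Fin (r * b)) k → LEdge (Fin (r * b)) N),
          IsBlock (Fin (r * b)) k N ι →
          (p / (2 - p) ≤ ∑ ω, ((diamond b r).lattice N).fk p 2 ω *
              ((diamond b r).lattice k).cross (ω ∘ ι) ∧
            ∑ ω, ((diamond b r).lattice N).fk p 2 ω *
              ((diamond b r).lattice k).cross (ω ∘ ι) ≤ p) ∧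
          ∀ t : ℝ, 0 < t →
            0 ≤ autoCov (((diamond b r).lattice N).fk p 2) t
              (fun ω => ((diamond b r).lattice k).cross (ω ∘ ι)) ∧
            autoCov (((diamond b r).lattice N).fk p 2) t
              (fun ω => ((diamond b r).lattice k).cross (ω ∘ ι)) ≤ C * θ ^ k / t := by
  obtain ⟨s, hs0, hs1, hs⟩ := exists_crit hb hr
  have key : ∀ p : ℝ, 0 < p → p < 1 → 0 < p / (2 - p) ∧ p / (2 - p) < 1 := by
    intro p h0 h1
    refine ⟨div_pos h0 (by linarith), ?_⟩
    rw [div_lt_one (by linarith)]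
    linarith
  have e : 2 * s / (1 + s) / (2 - 2 * s / (1 + s)) = s := by
    field_simp
    ring
  have hp0 : 0 < 2 * s / (1 + s) := by positivity
  have hp1 : 2 * s / (1 + s) < 1 := by
    rw [div_lt_one (by linarith)]
    linarith
  have hc : (1 + 2 * s / (1 + s) / (2 - 2 * s / (1 + s))) /
      (1 - 2 * s / (1 + s) / (2 - 2 * s / (1 + s))) =
      ((1 + (2 * s / (1 + s) / (2 - 2 * s / (1 + s))) ^ b) /
        (1 - (2 * s / (1 + s) / (2 - 2 * s / (1 + s))) ^ b)) ^ r := by
    rw [e]
    exact hs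
  refine ⟨2 * s / (1 + s), ⟨hp0, hp1, hc⟩, ?_, diamond_sens hb hr hp0 hp1 hc⟩
  intro p' h0 h1 h
  have h2 := crit_unique hb (key p' h0 h1).1 (key p' h0 h1).2 hs0 hs1 h hs
  rw [← h2]
  have h3 : (2 : ℝ) - p' ≠ 0 := by linarith
  field_simp
  ring

end Pool.Agent.Results.MP_a14fda_pr.DiamondNoiseSensitivity
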